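import Pool.Agent.ABCP.Stmts

set_option autoImplicit false

/-!
# Squad ABCP: row IDL
-/

namespace Pool.Agent.ABCP.H32

open Matrix Pool.Agent.ABCP
open Pool.Agent.ABC3 (St sdeg xc mu mu_def xc_comm xc_sq mu_comm mu_deg HasDeg HomV kr)

section basic

variable {p : ℕ} {K Q B : Type} [Field K] [AddCommGroup Q] [Module K Q] [Fintype B] [DecidableEq B]
  (S : Sys p K Q B)

theorem hasDeg_zero (k : ℤ) : HasDeg S.deg k (0 : Matrix B B K) := by
  intro s s' h
  exact absurd rfl h

theorem hasDeg_add {k : ℤ} {M N : Matrix B B K} (hM : HasDeg S.deg k M) (hN : HasDeg S.deg k N) :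
    HasDeg S.deg k (M + N) := by
  intro s s' h
  by_cases h1 : M s s' = 0
  · apply hN s s'
    intro h2
    apply h
    rw [Matrix.add_apply, h1, h2, add_zero]
  · exact hM s s' h1

theorem hasDeg_mul {k l : ℤ} {M N : Matrix B B K} (hM : HasDeg S.deg k M)
    (hN : HasDeg S.deg l N) : HasDeg S.deg (k + l) (M * N) := by
  intro s s' h
  rw [Matrix.mul_apply] at h
  obtain ⟨t, -, ht⟩ := Finset.exists_ne_zero_of_sum_ne_zero h
  have h1 := hM s t (left_ne_zero_of_mul ht)
  have h2 := hN t s' (right_ne_zero_of_mul ht)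
  omega

theorem hasDeg_sum {ι : Type} [Fintype ι] {k : ℤ} {M : ι → Matrix B B K}
    (hM : ∀ c, HasDeg S.deg k (M c)) : HasDeg S.deg k (∑ c, M c) := by
  intro s s' h
  rw [Matrix.sum_apply] at h
  obtain ⟨t, -, ht⟩ := Finset.exists_ne_zero_of_sum_ne_zero h
  exact hM t s s' ht

theorem com_zero (P : Submodule K Q) : Com S P (0 : Matrix B B K) := by
  intro x _
  rw [mul_zero, zero_mul]

theorem com_add {P : Submodule K Q} {M N : Matrix B B K} (hM : Com S P M) (hN : Com S P N) :
    Com S P (M + N) := by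
  intro x hx
  rw [mul_add, add_mul, hM x hx, hN x hx]

theorem com_mul {P : Submodule K Q} {M N : Matrix B B K} (hM : Com S P M) (hN : Com S P N) :
    Com S P (M * N) := by
  intro x hx
  rw [← mul_assoc, hM x hx, mul_assoc, hN x hx, mul_assoc]

theorem com_sum {ι : Type} [Fintype ι] {P : Submodule K Q} {M : ι → Matrix B B K}
    (hM : ∀ c, Com S P (M c)) : Com S P (∑ c, M c) := by
  intro x hx
  rw [Finset.mul_sum, Finset.sum_mul]
  exact Finset.sum_congr rfl fun c _ => hM c x hx

theorem com_mono {P P' : Submodule K Q} (h : P ≤ P') {M : Matrix B B K} (hM : Com S P' M) :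
    Com S P M := fun x hx => hM x (h hx)

theorem tr_zero (q : Q) : Tr S q 0 = 0 := by
  unfold Tr
  simp

end basic

theorem idl (trc : TRCStmt) : IDLStmt := by
  classical
  intro p _ K Q B _ _ _ _ _ _ S ι _ ev
  obtain ⟨t1, t2, t3, t4, t5, t6⟩ := trc p K Q B S
  refine ⟨?_, ?_, ?_, ?_, ?_⟩
  · refine ⟨fun _ => 0, fun c => ⟨hasDeg_zero S _, com_zero S _⟩, fun q _ => ?_⟩
    simp [tr_zero]
  · rintro f f' ⟨g, hg, hf⟩ ⟨g', hg', hf'⟩
    refine ⟨fun c => g c + g' c, fun c => ⟨hasDeg_add S (hg c).1 (hg' c).1,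
      com_add S (hg c).2 (hg' c).2⟩, fun q hq => ?_⟩
    rw [hf q hq, hf' q hq, ← Finset.sum_add_distrib]
    exact Finset.sum_congr rfl fun c _ => (t6 _ _ _).symm
  · rintro f h ⟨g, hg, hf⟩ ⟨hd, hc⟩
    constructor
    · refine ⟨fun c => h * g c, fun c => ⟨?_, com_mul S (com_mono S le_top hc) (hg c).2⟩,
        fun q hq => ?_⟩
      · have := hasDeg_mul S hd (hg c).1
        rwa [zero_add] at this
      · rw [hf q hq, Finset.mul_sum]
        refine Finset.sum_congr rfl fun c _ => ?_
        have := t3 (q c) h (g c) 1 (hc _ trivial) (by rw [mul_one, one_mul])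
        rwa [mul_one, mul_one] at this
    · refine ⟨fun c => g c * h, fun c => ⟨?_, com_mul S (hg c).2 (com_mono S le_top hc)⟩,
        fun q hq => ?_⟩
      · have := hasDeg_mul S (hg c).1 hd
        rwa [add_zero] at this
      · rw [hf q hq, Finset.sum_mul]
        refine Finset.sum_congr rfl fun c _ => ?_
        have := t3 (q c) 1 (g c) h (by rw [mul_one, one_mul]) (hc _ trivial)
        rwa [one_mul, one_mul] at this
  · rintro hev f ⟨g, hg, hf⟩
    have hq : ∀ c, ∃ q : Q, ev c q = 1 := by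
      intro c
      obtain ⟨x, hx⟩ : ∃ x, ev c x ≠ 0 := by
        by_contra h
        push Not at h
        exact hev c (LinearMap.ext h)
      refine ⟨(ev c x)⁻¹ • x, ?_⟩
      rw [map_smul, smul_eq_mul, inv_mul_cancel₀ hx]
    choose q hq using hq
    rw [hf q hq]
    constructor
    · refine hasDeg_sum S fun c => ?_
      have := t2 _ (q c) (g c) (hg c).1
      rwa [neg_add_cancel] at this
    · refine com_sum S fun c => ?_
      exact t1 ⊤ (ev c) (q c) (g c) (by rw [top_inf_eq]; exact (hg c).2) trivial (hq c)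
  · intro c q g hd hc hq
    refine ⟨fun c' => if c' = c then g else 0, fun c' => ?_, fun q' hq' => ?_⟩
    · dsimp only
      split_ifs with h
      · subst h
        exact ⟨hd, hc⟩
      · exact ⟨hasDeg_zero S _, com_zero S _⟩
    · rw [Finset.sum_eq_single c]
      · dsimp only
        rw [if_pos rfl]
        exact t5 ⊤ (ev c) q (q' c) g (by rw [top_inf_eq]; exact hc) trivial trivial hq (hq' c)
      · intro c' _ h
        dsimp only
        rw [if_neg h, tr_zero]
      · intro h
        exact absurd (Finset.mem_univ c) h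

end Pool.Agent.ABCP.H32
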